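import Pool.Agent.Y393.SG.Stm
import Pool.Agent.H968R3.GraphLem

/-!
# Project SG: the girth of the blown up graph
-/

set_option autoImplicit false

namespace Pool.Agent.Y587.SG

open SimpleGraph Pool.Agent.Y393.SG Pool.Agent.H968R3

section
variable {A : Type} {H : SimpleGraph A} {L : ℕ} {φ : A → A → ZMod L}

theorem blow_inr {i j : A} {x : (A × ZMod L) ⊕ (A × A)} (h : (blow H L φ).Adj (Sum.inr (i, j)) x) :
    x = Sum.inl (i, φ i j) ∨ x = Sum.inr (j, i) := by
  rcases x with ⟨a, s⟩ | ⟨a, b⟩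
  · obtain ⟨h1, -, h3⟩ := h
    left; rw [h3, h1]
  · obtain ⟨-, h2, h3⟩ := h
    right; rw [h2, h3]

theorem blow_inl {i : A} {s : ZMod L} {x : (A × ZMod L) ⊕ (A × A)}
    (h : (blow H L φ).Adj (Sum.inl (i, s)) x) :
    x = Sum.inl (i, s + 1) ∨ (∃ t, s = t + 1 ∧ x = Sum.inl (i, t)) ∨ ∃ b, x = Sum.inr (i, b) := by
  rcases x with ⟨a, t⟩ | ⟨a, b⟩
  · obtain ⟨h1, -, h3 | h3⟩ := h
    · left; rw [h3, h1]
    · right; left; exact ⟨t, h3, by rw [h1]⟩
  · obtain ⟨h1, -, -⟩ := h
    right; right; exact ⟨b, by rw [h1]⟩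

end

theorem odd_aux {V : Type} [Finite V] (G : SimpleGraph V) (v : V)
    (h : (G.neighborSet v).ncard = 1) : ∃ w, w ≠ v ∧ Odd (G.neighborSet w).ncard := by
  classical
  have := Fintype.ofFinite V
  have key : ∀ w, (G.neighborSet w).ncard = G.degree w := fun w => by
    rw [Set.ncard_eq_toFinset_card', Set.toFinset_card, SimpleGraph.card_neighborSet_eq_degree]
  obtain ⟨w, hw, hodd⟩ := SimpleGraph.exists_ne_odd_degree_of_exists_odd_degree G v
    (by rw [← key, h]; exact odd_one)
  exact ⟨w, hw, by rw [key]; exact hodd⟩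

theorem t_GIR : S_GIR := by
  classical
  intro A _ H L φ γ l hL hγ hlL hlγ
  rw [SimpleGraph.le_egirth]
  intro v₀ c hc
  have : NeZero L := ⟨by omega⟩
  have : Fintype A := Fintype.ofFinite A
  have hgoal : l ≤ c.length := ?_
  · exact_mod_cast hgoal
  set B := c.toSubgraph.spanningCoe with hB
  have hBadj : ∀ x y, B.Adj x y ↔ s(x, y) ∈ c.edges := fun x y => by
    rw [hB, Subgraph.spanningCoe_adj, Walk.adj_toSubgraph_iff_mem_edges]
  have hBW : ∀ x y, B.Adj x y → (blow H L φ).Adj x y := fun x y h => c.toSubgraph.adj_sub h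
  have hdeg : ∀ x y, B.Adj x y → (B.neighborSet x).ncard = 2 := fun x y h =>
    hc.ncard_neighborSet_toSubgraph_eq_two
      (c.fst_mem_support_of_mem_edges ((hBadj x y).1 h))
  have htwo : ∀ x y, B.Adj x y → ∃ z, z ≠ y ∧ B.Adj x z := by
    intro x y h
    by_contra hno
    push Not at hno
    have h1 : B.neighborSet x ⊆ {y} := by
      intro z hz
      by_contra hzy
      exact hno z hzy hz
    have h2 := Set.ncard_le_ncard h1 (Set.finite_singleton y)
    rw [hdeg x y h, Set.ncard_singleton] at h2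
    omega
  have hboth : ∀ i j x, B.Adj (Sum.inr (i, j)) x →
      B.Adj (Sum.inr (i, j)) (Sum.inl (i, φ i j)) ∧ B.Adj (Sum.inr (i, j)) (Sum.inr (j, i)) := by
    intro i j x h
    obtain ⟨z, hz, h'⟩ := htwo _ _ h
    rcases blow_inr (hBW _ _ h) with h1 | h1 <;> rcases blow_inr (hBW _ _ h') with h2 | h2
    · exact absurd (h2.trans h1.symm) hz
    · rw [h1] at h; rw [h2] at h'; exact ⟨h, h'⟩
    · rw [h1] at h; rw [h2] at h'; exact ⟨h', h⟩
    · exact absurd (h2.trans h1.symm) hz
  have hlen : B.edgeFinset.card = c.length := by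
    have h1 : B.edgeFinset = c.edges.toFinset := by
      ext e
      induction e with | _ x y
      rw [SimpleGraph.mem_edgeFinset, SimpleGraph.mem_edgeSet, hBadj]
      simp
    rw [h1, List.toFinset_card_of_nodup hc.isTrail.edges_nodup, Walk.length_edges]
  let F : SimpleGraph A :=
    { Adj := fun i j => B.Adj (Sum.inr (i, j)) (Sum.inr (j, i))
      symm := ⟨fun i j h => h.symm⟩
      loopless := ⟨fun i h => h.ne rfl⟩ }
  have hFH : F ≤ H := by
    intro i j h
    exact (hBW _ _ h).1
  by_cases hF : ∃ i j, F.Adj i j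
  · have hF2 : ∀ i j, F.Adj i j → ∃ k, k ≠ j ∧ F.Adj i k := by
      intro i j hij
      let X : Set ((A × ZMod L) ⊕ (A × A)) :=
        {x | (∃ s, x = Sum.inl (i, s)) ∨ ∃ b, x = Sum.inr (i, b)}
      let Bi : SimpleGraph ((A × ZMod L) ⊕ (A × A)) :=
        { Adj := fun x y => B.Adj x y ∧ x ∈ X ∧ y ∈ X
          symm := ⟨fun x y h => ⟨h.1.symm, h.2.2, h.2.1⟩⟩
          loopless := ⟨fun x h => h.1.ne rfl⟩ }
      have hd1 : (Bi.neighborSet (Sum.inr (i, j))).ncard = 1 := by
        rw [Set.ncard_eq_one]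
        refine ⟨Sum.inl (i, φ i j), ?_⟩
        ext x
        rw [SimpleGraph.mem_neighborSet, Set.mem_singleton_iff]
        constructor
        · rintro ⟨h1, -, h3⟩
          rcases blow_inr (hBW _ _ h1) with h | h
          · exact h
          · rw [h] at h3
            rcases h3 with ⟨s, hs⟩ | ⟨b, hb⟩
            · cases hs
            · have := (Prod.ext_iff.1 (Sum.inr.inj hb)).1
              exact absurd this.symm (F.ne_of_adj hij)
        · rintro rfl
          exact ⟨(hboth i j _ hij).1, Or.inr ⟨j, rfl⟩, Or.inl ⟨_, rfl⟩⟩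
      obtain ⟨w, hw, hodd⟩ := odd_aux Bi (Sum.inr (i, j)) hd1
      obtain ⟨y, hy⟩ : ∃ y, Bi.Adj w y :=
        (Set.ncard_pos (Set.toFinite _)).1 hodd.pos
      obtain ⟨x, hx1, hx2⟩ : ∃ x, B.Adj w x ∧ ¬ Bi.Adj w x := by
        by_contra hno
        push Not at hno
        have h1 : Bi.neighborSet w = B.neighborSet w := by
          ext x
          exact ⟨fun h => h.1, fun h => hno x h⟩
        have h2 := hdeg w y hy.1
        rw [← h1] at h2
        rw [h2] at hodd
        exact absurd hodd (by decide)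
      have hwX := hy.2.1
      have hxX : x ∉ X := fun h => hx2 ⟨hx1, hwX, h⟩
      rcases hwX with ⟨s, rfl⟩ | ⟨b, rfl⟩
      · rcases blow_inl (hBW _ _ hx1) with h | ⟨t, -, h⟩ | ⟨b, h⟩
        · exact absurd (Or.inl ⟨_, h⟩) hxX
        · exact absurd (Or.inl ⟨_, h⟩) hxX
        · exact absurd (Or.inr ⟨_, h⟩) hxX
      · rcases blow_inr (hBW _ _ hx1) with h | h
        · exact absurd (Or.inl ⟨_, h⟩) hxX
        · refine ⟨b, fun hb => hw (by rw [hb]), ?_⟩
          rw [h] at hx1
          exact hx1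
    have h1 := le_card_edges hγ hFH hF hF2
    have h2 : F.edgeSet.ncard = F.edgeFinset.card := by
      rw [← coe_edgeFinset, Set.ncard_coe_finset]
    let f : F.Dart ⊕ F.Dart ⊕ F.Dart → B.Dart := Sum.elim
      (fun d => ⟨(Sum.inr (d.fst, d.snd), Sum.inr (d.snd, d.fst)), d.adj⟩)
      (Sum.elim
        (fun d => ⟨(Sum.inr (d.fst, d.snd), Sum.inl (d.fst, φ d.fst d.snd)),
          (hboth _ _ _ d.adj).1⟩)
        (fun d => ⟨(Sum.inl (d.fst, φ d.fst d.snd), Sum.inr (d.fst, d.snd)),
          (hboth _ _ _ d.adj).1.symm⟩))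
    have hf : Function.Injective f := by
      have key : ∀ d d' : F.Dart, (d.fst, d.snd) = (d'.fst, d'.snd) → d = d' := by
        intro d d' h
        exact SimpleGraph.Dart.ext _ _ h
      rintro (d | d | d) (d' | d' | d') h <;>
        simp only [f, Sum.elim_inl, Sum.elim_inr, SimpleGraph.Dart.mk.injEq, Prod.mk.injEq,
          Sum.inr.injEq, Sum.inl.injEq, reduceCtorEq, false_and, and_false] at h
      · rw [key d d' (by rw [h.1.1, h.1.2])]
      · rw [key d d' (by rw [h.1.1, h.1.2])]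
      · rw [key d d' (by rw [h.2.1, h.2.2])]
    have h3 := Fintype.card_le_of_injective f hf
    rw [Fintype.card_sum, Fintype.card_sum, SimpleGraph.dart_card_eq_twice_card_edges,
      SimpleGraph.dart_card_eq_twice_card_edges, hlen] at h3
    omega
  · push Not at hF
    have hno : ∀ i j x, ¬ B.Adj (Sum.inr (i, j)) x := fun i j x h => hF i j (hboth i j x h).2
    obtain ⟨i, s, his⟩ : ∃ i s, B.Adj (Sum.inl (i, s)) (Sum.inl (i, s + 1)) := by
      obtain ⟨y, h1⟩ : ∃ y, B.Adj v₀ y := ⟨c.snd, c.toSubgraph_adj_snd hc.not_nil⟩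
      rcases hv : v₀ with ⟨i, s⟩ | ⟨i, j⟩
      · rw [hv] at h1
        rcases blow_inl (hBW _ _ h1) with h | ⟨t, ht, h⟩ | ⟨b, h⟩
        · rw [h] at h1; exact ⟨i, s, h1⟩
        · rw [h] at h1; subst ht; exact ⟨i, t, h1.symm⟩
        · rw [h] at h1; exact absurd h1.symm (hno _ _ _)
      · rw [hv] at h1
        exact absurd h1 (hno _ _ _)
    have hall : ∀ n : ℕ, B.Adj (Sum.inl (i, s + n)) (Sum.inl (i, s + n + 1)) := by
      intro n
      induction n with
      | zero => simpa using his
      | succ n ih =>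
        obtain ⟨z, hz, h⟩ := htwo _ _ ih.symm
        rcases blow_inl (hBW _ _ h) with h1 | ⟨t, ht, h1⟩ | ⟨b, h1⟩
        · rw [h1] at h
          push_cast
          rw [← add_assoc]
          exact h
        · exact absurd (by rw [h1, add_right_cancel ht]) hz
        · rw [h1] at h; exact absurd h.symm (hno _ _ _)
    have hmem : ∀ t : ZMod L, (Sum.inl (i, t) : (A × ZMod L) ⊕ (A × A)) ∈ c.support := by
      intro t
      have h1 := hall (t - s).val
      rw [ZMod.natCast_zmod_val] at h1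
      have h2 : s + (t - s) = t := by ring
      rw [h2] at h1
      exact c.fst_mem_support_of_mem_edges ((hBadj _ _).1 h1)
    have hsub : (Finset.univ : Finset (ZMod L)).image
        (fun t => (Sum.inl (i, t) : (A × ZMod L) ⊕ (A × A))) ⊆ c.support.tail.toFinset := by
      intro x hx
      obtain ⟨t, -, rfl⟩ := Finset.mem_image.1 hx
      rw [List.mem_toFinset]
      rcases c.mem_support_iff.1 (hmem t) with h | h
      · rw [h]; exact c.end_mem_tail_support hc.not_nil
      · exact h
    have h1 := Finset.card_le_card hsub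
    rw [Finset.card_image_of_injective _ (fun a b h => (Prod.ext_iff.1 (Sum.inl.inj h)).2),
      Finset.card_univ, ZMod.card] at h1
    have h2 := List.toFinset_card_le c.support.tail
    rw [List.length_tail, Walk.length_support] at h2
    omega

end Pool.Agent.Y587.SG
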