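import Pool.Agent.Y393.SG.Stm
import Pool.Agent.H258R2.GU.Cop
import Pool.Agent.H258R2.GU.GL

/-!
# Project SG: dense graphs of girth eight (Wenger graphs)
-/

set_option autoImplicit false

namespace Pool.Agent.Y587.SG

open SimpleGraph Pool.Agent.Y393.SG

/-- Points and lines. -/
abbrev P3 (p : ℕ) : Type := ZMod p × ZMod p × ZMod p

/-- Incidence. -/
def inc (p : ℕ) (u v : P3 p) : Prop := u.2.1 + v.2.1 = u.1 * v.1 ∧ u.2.2 + v.2.2 = u.1 * v.2.1

section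
variable {p : ℕ} [Fact p.Prime]

theorem inc_fst_left {u u' v : P3 p} (h : inc p u v) (h' : inc p u' v) (he : u.1 = u'.1) :
    u = u' := by
  obtain ⟨h1, h2⟩ := h
  obtain ⟨h3, h4⟩ := h'
  rw [← he] at h3 h4
  refine Prod.ext he (Prod.ext ?_ ?_)
  · linear_combination h1 - h3
  · linear_combination h2 - h4

theorem inc_fst_right {u v v' : P3 p} (h : inc p u v) (h' : inc p u v') (he : v.1 = v'.1) :
    v = v' := by
  obtain ⟨h1, h2⟩ := h
  obtain ⟨h3, h4⟩ := h'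
  rw [← he] at h3
  have h5 : v.2.1 = v'.2.1 := by linear_combination h1 - h3
  rw [← h5] at h4
  refine Prod.ext he (Prod.ext h5 ?_)
  linear_combination h2 - h4

theorem no4 {u u' v v' : P3 p} (h1 : inc p u v) (h2 : inc p u' v) (h3 : inc p u v')
    (h4 : inc p u' v') (hu : u ≠ u') : v = v' := by
  have ha : u.1 - u'.1 ≠ 0 := fun h => hu (inc_fst_left h1 h2 (sub_eq_zero.1 h))
  refine inc_fst_right h1 h3 ?_
  have : (u.1 - u'.1) * (v.1 - v'.1) = 0 := by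
    linear_combination -(h1.1) + h2.1 + h3.1 - h4.1
  exact sub_eq_zero.1 ((mul_eq_zero.1 this).resolve_left ha)

/-- `u₁ v₁ u₂ v₂ u₃ v₃` -/
theorem no6 {u₁ u₂ u₃ v₁ v₂ v₃ : P3 p} (h11 : inc p u₁ v₁) (h21 : inc p u₂ v₁)
    (h22 : inc p u₂ v₂) (h32 : inc p u₃ v₂) (h33 : inc p u₃ v₃) (h13 : inc p u₁ v₃)
    (n23 : u₂ ≠ u₃) (n13 : u₁ ≠ u₃) (m23 : v₂ ≠ v₃) : False := by
  have hv : u₂.1 - u₃.1 ≠ 0 := fun h => n23 (inc_fst_left h22 h32 (sub_eq_zero.1 h))
  have hw : u₃.1 - u₁.1 ≠ 0 := fun h => n13 (inc_fst_left h13 h33 (sub_eq_zero.1 h).symm)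
  have hx : v₂.1 - v₃.1 ≠ 0 := fun h => m23 (inc_fst_right h32 h33 (sub_eq_zero.1 h))
  obtain ⟨a1, a2⟩ := h11
  obtain ⟨b1, b2⟩ := h21
  obtain ⟨c1, c2⟩ := h22
  obtain ⟨d1, d2⟩ := h32
  obtain ⟨e1, e2⟩ := h33
  obtain ⟨f1, f2⟩ := h13
  have k1 : (u₁.1 - u₂.1) * (v₁.1 - v₃.1) + (u₂.1 - u₃.1) * (v₂.1 - v₃.1) = 0 := by
    linear_combination -a1 + b1 - c1 + d1 - e1 + f1
  have k2 : (u₁.1 - u₂.1) * (v₁.2.1 - v₃.2.1) + (u₂.1 - u₃.1) * (v₂.2.1 - v₃.2.1) = 0 := by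
    linear_combination -a2 + b2 - c2 + d2 - e2 + f2
  have k3 : v₁.2.1 - v₃.2.1 = u₁.1 * (v₁.1 - v₃.1) := by linear_combination a1 - f1
  have k4 : v₂.2.1 - v₃.2.1 = u₃.1 * (v₂.1 - v₃.1) := by linear_combination d1 - e1
  have : (u₂.1 - u₃.1) * ((v₂.1 - v₃.1) * (u₃.1 - u₁.1)) = 0 := by
    linear_combination k2 - u₁.1 * k1 - (u₁.1 - u₂.1) * k3 - (u₂.1 - u₃.1) * k4
  exact (mul_ne_zero hv (mul_ne_zero hx hw)) this

/-- The Wenger graph. -/
def wen (p : ℕ) : SimpleGraph (P3 p ⊕ P3 p) := SimpleGraph.fromRel (fun x y : P3 p ⊕ P3 p =>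
  ∃ a b, x = Sum.inl a ∧ y = Sum.inr b ∧ inc p a b)

theorem girth_wen : ((8 : ℕ) : ℕ∞) ≤ (wen p).egirth := by
  refine GU4.girth_of_closed_walks (inc p) 8 ?_
  intro g a b hg h1 h2 h3 h4 h5
  by_contra hlt
  have hg3 : g = 1 ∨ g = 2 ∨ g = 3 := by omega
  rcases hg3 with rfl | rfl | rfl
  · exact h3 0 (by norm_num) h5.symm
  · have e0 := h1 0 (by norm_num)
    have e1 := h2 0 (by norm_num)
    have e2 := h1 1 (by norm_num)
    have e3 := h2 1 (by norm_num)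
    simp only [Nat.reduceAdd] at e0 e1 e2 e3
    rw [h5] at e3
    exact h4 0 (by norm_num) (no4 e0 e1 e3 e2 (h3 0 (by norm_num)))
  · have e0 := h1 0 (by norm_num)
    have e1 := h2 0 (by norm_num)
    have e2 := h1 1 (by norm_num)
    have e3 := h2 1 (by norm_num)
    have e4 := h1 2 (by norm_num)
    have e5 := h2 2 (by norm_num)
    have n0 := h3 0 (by norm_num)
    have n1 := h3 1 (by norm_num)
    have n2 := h3 2 (by norm_num)
    have m0 := h4 0 (by norm_num)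
    have m1 := h4 1 (by norm_num)
    simp only [Nat.reduceAdd] at e0 e1 e2 e3 e4 e5 n0 n1 n2 m0 m1
    rw [h5] at e5 n2
    exact no6 e0 e1 e2 e3 e4 e5 n1 n2.symm m1

theorem wen_adj_lr {a b : P3 p} : (wen p).Adj (Sum.inl a) (Sum.inr b) ↔ inc p a b := by
  rw [wen, SimpleGraph.fromRel_adj]
  constructor
  · rintro ⟨-, ⟨a', b', h1, h2, h3⟩ | ⟨a', b', h1, h2, h3⟩⟩
    · rwa [Sum.inl.inj h1, Sum.inr.inj h2]
    · cases h1
  · intro h
    exact ⟨by simp, Or.inl ⟨a, b, rfl, rfl, h⟩⟩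

theorem wen_adj_rl {a b : P3 p} : (wen p).Adj (Sum.inr b) (Sum.inl a) ↔ inc p a b := by
  rw [SimpleGraph.adj_comm, wen_adj_lr]

theorem deg_wen (x : P3 p ⊕ P3 p) : p ≤ ((wen p).neighborSet x).ncard := by
  classical
  have key : ∃ f : ZMod p → P3 p ⊕ P3 p, Function.Injective f ∧ ∀ t, (wen p).Adj x (f t) := by
    rcases x with ⟨a, b, c⟩ | ⟨x, y, z⟩
    · refine ⟨fun t => Sum.inr (t, a * t - b, a * (a * t - b) - c), ?_, ?_⟩
      · intro s t h
        have := Sum.inr.inj h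
        exact (Prod.ext_iff.1 this).1
      · intro t
        rw [wen_adj_lr]
        constructor <;> simp only <;> ring
    · refine ⟨fun t => Sum.inl (t, t * x - y, t * y - z), ?_, ?_⟩
      · intro s t h
        have := Sum.inl.inj h
        exact (Prod.ext_iff.1 this).1
      · intro t
        rw [wen_adj_rl]
        constructor <;> simp only <;> ring
  obtain ⟨f, hf, hadj⟩ := key
  have h1 : (Set.range f).ncard = p := by
    rw [Set.ncard_range_of_injective hf, Nat.card_zmod]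
  refine (le_of_eq h1.symm).trans ?_
  exact Set.ncard_le_ncard (by rintro _ ⟨t, rfl⟩; exact hadj t) (Set.toFinite _)

theorem exists_fin : ∃ G : SimpleGraph (Fin (2 * p ^ 3)), ((8 : ℕ) : ℕ∞) ≤ G.egirth ∧
    ∀ v, p ≤ (G.neighborSet v).ncard := by
  classical
  have hcard : Fintype.card (P3 p ⊕ P3 p) = 2 * p ^ 3 := by
    rw [Fintype.card_sum, Fintype.card_prod, Fintype.card_prod, ZMod.card]; ring
  obtain ⟨e⟩ : Nonempty ((P3 p ⊕ P3 p) ≃ Fin (2 * p ^ 3)) := ⟨Fintype.equivFinOfCardEq hcard⟩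
  let i := SimpleGraph.Iso.map e (wen p)
  refine ⟨(wen p).map e, ?_, ?_⟩
  · rw [← i.egirth_eq]; exact girth_wen
  · intro v
    have h1 := deg_wen (e.symm v)
    refine h1.trans (le_of_eq ?_)
    have hadj : ∀ x y, ((wen p).map e).Adj (e x) (e y) ↔ (wen p).Adj x y :=
      fun x y => i.map_adj_iff
    have h2 : ((wen p).map e).neighborSet v = e '' ((wen p).neighborSet (e.symm v)) := by
      ext w
      rw [Set.mem_image, SimpleGraph.mem_neighborSet]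
      constructor
      · intro h
        refine ⟨e.symm w, ?_, by simp⟩
        rw [SimpleGraph.mem_neighborSet, ← hadj]
        simpa using h
      · rintro ⟨y, hy, rfl⟩
        rw [SimpleGraph.mem_neighborSet, ← hadj] at hy
        simpa using hy
    rw [h2, Set.ncard_image_of_injective _ e.injective]

end

theorem t_W3 : S_W3 := by
  classical
  refine ⟨1 / 16, by norm_num, 16, fun n hn => ?_⟩
  obtain ⟨t, ht1, ht2⟩ : ∃ t : ℕ, 16 * t ^ 3 ≤ n ∧ n < 16 * (t + 1) ^ 3 := by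
    refine ⟨Nat.findGreatest (fun t => 16 * t ^ 3 ≤ n) n, ?_, ?_⟩
    · exact Nat.findGreatest_spec (P := fun t => 16 * t ^ 3 ≤ n) (m := 0) (Nat.zero_le _) (by simp)
    · by_contra hle
      push Not at hle
      have h1 : Nat.findGreatest (fun t => 16 * t ^ 3 ≤ n) n + 1 ≤ n := by
        refine le_trans ?_ hle
        have h2 := Nat.le_self_pow (n := 3) (by norm_num)
          (Nat.findGreatest (fun t => 16 * t ^ 3 ≤ n) n + 1)
        omega
      have h3 := Nat.le_findGreatest (P := fun t => 16 * t ^ 3 ≤ n) h1 hle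
      omega
  have ht0 : t ≠ 0 := by
    rintro rfl
    omega
  obtain ⟨p, hp, hp1, hp2⟩ := Nat.exists_prime_lt_and_le_two_mul t ht0
  have : Fact p.Prime := ⟨hp⟩
  obtain ⟨G, hG, hd⟩ := exists_fin (p := p)
  have hm : 2 * p ^ 3 ≤ n := by
    have h1 : p ^ 3 ≤ (2 * t) ^ 3 := Nat.pow_le_pow_left hp2 3
    have h2 : (2 * t) ^ 3 = 8 * t ^ 3 := by ring
    omega
  have hp0 : 0 < 2 * p ^ 3 := by have := hp.pos; positivity
  have hn2 : n ≤ 64 * p ^ 3 := by
    have h1 : (t + 1) ^ 3 ≤ p ^ 3 := Nat.pow_le_pow_left hp1 3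
    omega
  obtain ⟨H, hH1, hH2⟩ := GU4.copies (2 * p ^ 3) n p ((8 : ℕ) : ℕ∞) hp0 hm G (fun v => by
    have := hd v
    rwa [Set.ncard_eq_toFinset_card', Set.toFinset_card, SimpleGraph.card_neighborSet_eq_degree]
      at this) hG
  refine ⟨H, lt_of_lt_of_le (by exact_mod_cast (by norm_num : 6 < 8)) hH1, ?_⟩
  have hnp : (0 : ℝ) < n := by exact_mod_cast (by omega : 0 < n)
  have h1 : (n : ℝ) ^ (1 / 3 : ℝ) ≤ 4 * p := by
    have h2 : (n : ℝ) ≤ (4 * p) ^ 3 := by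
      have : ((4 * p : ℝ)) ^ 3 = 64 * p ^ 3 := by ring
      rw [this]
      exact_mod_cast hn2
    calc (n : ℝ) ^ (1 / 3 : ℝ) ≤ ((4 * p : ℝ) ^ 3) ^ (1 / 3 : ℝ) :=
          Real.rpow_le_rpow hnp.le h2 (by norm_num)
      _ = 4 * p := by
          rw [← Real.rpow_natCast, ← Real.rpow_mul (by positivity)]
          norm_num
  rw [Real.rpow_add hnp, Real.rpow_one]
  have h3 : (n : ℝ) * p ≤ 4 * H.edgeSet.ncard := by exact_mod_cast hH2
  nlinarith [mul_le_mul_of_nonneg_left h1 hnp.le]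

end Pool.Agent.Y587.SG
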